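import Pool.Agent.N88.ETC.Field

/-! # MP_2429c0_al: fields with core of index at most sixteen

Let `F` be a field of characteristic `≠ 2` with finitely many square classes, and let `N(a)` be the
group of the nonzero values of `x² - a y²`.  Let `C` be the smallest subgroup of `F*` which contains
all `a` with `N(a)` of index at most two in `F*`, and all `a` with `N(a) C = F*`.  If `C` has index
at most sixteen in `F*`, then the quaternionic structure of `F` is of elementary type.  It is
enough that all closed subgroups of index at least eight are generated by `C` and one element.

Outline. A quaternion algebra `t` is single if `t = (c,z)`, where all algebras `(c,x)` are split or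
isomorphic to `t`.  By linkage all members of a minimal relation between single quaternion algebras
have a common slot, and every sum of single algebras is an algebra `(c,z)` with `c ∈ C`.  Hence the
symbols on `C`, and on the groups generated by `C` and one more element, are functions of the
quaternion algebras and extend to `F*`. -/

set_option autoImplicit false

namespace Pool.Agent.Results.MP_2429c0_al.CoreSixteen

open Pool.Agent.H315R3.ETC Pool.Agent.TH188.ET Pool.Agent.TH673.VG

universe u

theorem result {F : Type u} [Field F] (h2 : (2 : F) ≠ 0) (hfin : FinSq F) :
    -- the core has index at most sixteen
    ((fieldCore F).index ≤ 16 → ∃ S : QData, Elem S ∧ IsStructureOf F S) ∧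
    -- the closed subgroups of index at least eight are generated by the core and one element
    ((∀ L : Subgroup Fˣ, NormClosed L → 8 ≤ L.index →
      ∃ x : Fˣ, L = fieldCore F ⊔ Subgroup.zpowers x) →
      ∃ S : QData, Elem S ∧ IsStructureOf F S) :=
  ⟨fun h => Pool.Agent.N88.ETC.field_sixteen h2 hfin h,
    fun h => Pool.Agent.N88.ETC.field_gen h2 hfin h⟩

end Pool.Agent.Results.MP_2429c0_al.CoreSixteen
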