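import Pool.Agent.N88.FR.Field

/-! # MP_2429c0_al: fields with many Steinberg symbols

Let `F` be a field of characteristic `≠ 2` with `[F* : F*²] = 2 ^ n`, and let `s` be the number of
the Steinberg symbols `F* × F* → Z/2`.  They form the dual of `K_2(F)/2`, which is isomorphic to
`Br_2(F)` (Merkurjev).  It is known that `s ≤ 2 ^ (n (n-1)/2 + 1)`, and `s ≤ 2 ^ (n (n-1)/2)` if `-1`
is a square.

Theorem.  The quaternionic structure of `F` is of elementary type if `s ≥ 2 ^ (n (n-1)/2 - 2)`, or if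
`-1` is a square and `s ≥ 2 ^ (n (n-1)/2 - 4)`.  If `2 ^ n s > 2 ^ (n (n-1)/2 + 4)`, or if `-1` is a
square and `2 ^ n s > 2 ^ (n (n-1)/2 + 2)`, there is a valuation ring `O` of `F` with `2 ∈ O*`,
`1 + m ⊆ F*²` and `O* F*² ≠ F*`, its residue field has at most `2 ^ (n (n-1)/2 + 4) / s`
(respectively `2 ^ (n (n-1)/2 + 2) / s`) square classes, and the structure of `F` is an iterated group
extension of that of the residue field.

Outline. Let `A` be the space of the biadditive maps `χ : F*/F*² × F*/F*² → Z/2` with `χ(a,-a) = 0`,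
and `R` the space of linear forms on `A` which vanish at the symbols; `|A| = s |R|`.  If `a` is not
rigid there is `b` such that `χ ↦ χ(a,b)` is in `R` and not zero.  At most three classes `a` give the
same element of `R`, by a separation argument in `A`; so there are at most `3 (|R| - 1)` classes
which are not rigid, and the basic part of `F` is bounded in terms of `|R|`. -/

set_option autoImplicit false

namespace Pool.Agent.Results.MP_2429c0_al.ManySymbols

open Pool.Agent.H315R3.ETC Pool.Agent.TH188.ET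

/-- the group of squares of `F*` -/
def squares (F : Type) [Field F] : Subgroup Fˣ := (powMonoidHom 2 : Fˣ →* Fˣ).range

/-- the Steinberg symbols on `F` with values in `ℤ/2`: the bimultiplicative functions `c` with
`c(x,y) = 0` for all `x + y = 1` -/
def Symbols (F : Type) [Field F] : Type :=
  {c : Fˣ → Fˣ → ZMod 2 // (∀ a b x : Fˣ, c (a * b) x = c a x + c b x) ∧
    (∀ x a b : Fˣ, c x (a * b) = c x a + c x b) ∧ ∀ x y : Fˣ, (x : F) + y = 1 → c x y = 0}

/-- the quaternionic structure of `F` is of elementary type -/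
def ElementaryType (F : Type) [Field F] : Prop := ∃ S : QData, Elem S ∧ IsStructureOf F S

theorem result (F : Type) [Field F] (h2 : (2 : F) ≠ 0) (n : ℕ) (hn : (squares F).index = 2 ^ n) :
    -- elementary type
    (2 ^ n.choose 2 ≤ 4 * Nat.card (Symbols F) → ElementaryType F) ∧
    (IsSquare (-1 : F) → 2 ^ n.choose 2 ≤ 16 * Nat.card (Symbols F) → ElementaryType F) ∧
    -- a valuation ring, and the reduction to its residue field
    ∀ e : ℕ, n.choose 2 + 4 ≤ e ∨ IsSquare (-1 : F) ∧ n.choose 2 + 2 ≤ e →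
      2 ^ e < 2 ^ n * Nat.card (Symbols F) →
      ∃ O : ValuationSubring F,
        (∀ x : F, x ∈ O → x⁻¹ ∉ O → IsSquare (1 + x)) ∧
        (∃ c : Fˣ, ∀ f : Fˣ, ¬ (((c * f ^ 2 : Fˣ) : F) ∈ O ∧ (((c * f ^ 2)⁻¹ : Fˣ) : F) ∈ O)) ∧
        (2 : IsLocalRing.ResidueField O) ≠ 0 ∧
        (squares (IsLocalRing.ResidueField O)).index * Nat.card (Symbols F) ≤ 2 ^ e ∧
        (∃ (T : QData) (k : ℕ), 1 ≤ k ∧
          2 ^ k * (squares (IsLocalRing.ResidueField O)).index = (squares F).index ∧
          IsStructureOf (IsLocalRing.ResidueField O) T ∧ IsStructureOf F (ext^[k] T)) ∧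
        (ElementaryType (IsLocalRing.ResidueField O) → ElementaryType F) := by
  have hcard : Nat.card (Symbols F) =
      Nat.card {c : Fˣ → Fˣ → ZMod 2 // Pool.Agent.N88.FR.IsSt F c} := by
    refine Nat.card_congr (Equiv.subtypeEquivRight fun c => ?_)
    exact ⟨fun h => ⟨h.1, h.2.1, h.2.2⟩, fun h => ⟨h.1, h.2, h.3⟩⟩
  rw [hcard]
  refine ⟨fun h => Pool.Agent.N88.FR.field_elem h2 hn (Or.inl h),
    fun h h' => Pool.Agent.N88.FR.field_elem h2 hn (Or.inr ⟨h, h'⟩), fun e he hs => ?_⟩
  obtain ⟨d, rfl⟩ : ∃ d, e = d + 1 := ⟨e - 1, by rcases he with he | he <;> omega⟩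
  have hd : 2 ^ (d + 1) = 2 * 2 ^ d := by rw [pow_succ]; ring
  rw [hd] at hs ⊢
  obtain ⟨O, h3, h4, h5, h6, k, T, h7, h8, h9, h10⟩ := Pool.Agent.N88.FR.field_val h2 hn (e := d)
    (by
      rcases he with he | he
      · exact Or.inl (by omega)
      · exact Or.inr ⟨he.1, by omega⟩) hs
  refine ⟨O, h3.2.2, h4, h5, h6, ⟨T, k, h7, h8, h9, h10⟩, ?_⟩
  rintro ⟨R, hR, hRs⟩
  exact ⟨_, Pool.Agent.Y920.ETC.elem_iter (Elem.iso _ _ hR (iso_of_structure hRs h9)) k, h10⟩

end Pool.Agent.Results.MP_2429c0_al.ManySymbols
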