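import Pool.Agent.N908.FR2.FieldX

/-! # MP_2429c0_al: fields with large norm indices and few relations between quaternion algebras

`F` is a field of characteristic `≠ 2` in which `-1` is a square, `[F* : F*²] = 2 ^ n`, and
`s` is the number of Steinberg symbols `F* × F* → Z/2`, so `s ≤ 2 ^ (n (n-1)/2)`.  For `a ∈ F*` let
`N(a)` be the group of the nonzero values of `x² - a y²`.

Theorem. (1) The structure of `F` is of elementary type if `s ≥ 2 ^ (n (n-1)/2 - 6)`.
(2) If `N(a)` has index at least `2 ^ c` in `F*` for all nonsquares `a`, `c ≥ 1`, and the structure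
of `F` is not a group extension, then `s ≤ 2 ^ (n (n-1)/2 - (c+1) n + 3c² + 5c + 3)`, and
`s ≤ 2 ^ (n (n-1)/2 - 2n + 5)`.
(3) If `N(a)` has index at least `2 ^ (c+1)` for all nonsquares `a` and `s` is larger than the
bounds in (2) for `n - 1` in place of the factor `n`, there is a valuation ring of `F`, and the
question for `F` is reduced to its residue field. -/

set_option autoImplicit false

namespace Pool.Agent.Results.MP_2429c0_al.NormIndexSymbols

open Pool.Agent.H315R3.ETC Pool.Agent.TH188.ET Pool.Agent.Y920.ETC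

/-- the group of squares of `F*` -/
def squares (F : Type) [Field F] : Subgroup Fˣ := (powMonoidHom 2 : Fˣ →* Fˣ).range

/-- the Steinberg symbols on `F` with values in `ℤ/2`: the bimultiplicative functions `c` with
`c(x,y) = 0` for all `x + y = 1` -/
def Symbols (F : Type) [Field F] : Type :=
  {c : Fˣ → Fˣ → ZMod 2 // (∀ a b x : Fˣ, c (a * b) x = c a x + c b x) ∧
    (∀ x a b : Fˣ, c x (a * b) = c x a + c x b) ∧ ∀ x y : Fˣ, (x : F) + y = 1 → c x y = 0}

/-- the group of the nonzero values of `x² - a y²` -/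
def norms {F : Type} [Field F] (a : Fˣ) : Subgroup Fˣ where
  carrier := {c | ∃ x y : F, (c : F) = x ^ 2 - a * y ^ 2}
  one_mem' := NormFrom.one a
  mul_mem' := NormFrom.mul
  inv_mem' := NormFrom.inv

/-- the quaternionic structure of `F` is of elementary type -/
def ElementaryType (F : Type) [Field F] : Prop := ∃ S : QData, Elem S ∧ IsStructureOf F S

theorem result (F : Type) [Field F] (h2 : (2 : F) ≠ 0) (h1 : IsSquare (-1 : F)) (n : ℕ)
    (hn : (squares F).index = 2 ^ n) :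
    -- elementary type
    (2 ^ n.choose 2 ≤ 64 * Nat.card (Symbols F) → ElementaryType F) ∧
    -- the structure of `F` is a group extension
    (∀ c : ℕ, 1 ≤ c → (∀ a : Fˣ, ¬ IsSquare (a : F) → 2 ^ c ≤ (norms a).index) →
      2 ^ (n.choose 2 + (3 * c ^ 2 + 5 * c + 3)) < 2 ^ ((c + 1) * n) * Nat.card (Symbols F) ∨
        2 ^ (n.choose 2 + 5) < 2 ^ (2 * n) * Nat.card (Symbols F) →
      ∃ T : QData, IsQuat T ∧ IsStructureOf F (ext T)) ∧
    -- a valuation ring, and the reduction to its residue field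
    ∀ c : ℕ, 1 ≤ c → (∀ a : Fˣ, ¬ IsSquare (a : F) → 2 ^ (c + 1) ≤ (norms a).index) →
      2 ^ (n.choose 2 + (3 * c ^ 2 + 5 * c + 3)) <
          2 ^ ((c + 1) * (n - 1)) * Nat.card (Symbols F) ∨
        2 ^ (n.choose 2 + 5) < 2 ^ (2 * (n - 1)) * Nat.card (Symbols F) →
      ∃ O : ValuationSubring F,
        (∀ x : F, x ∈ O → x⁻¹ ∉ O → IsSquare (1 + x)) ∧
        (∃ c : Fˣ, ∀ f : Fˣ, ¬ (((c * f ^ 2 : Fˣ) : F) ∈ O ∧ (((c * f ^ 2)⁻¹ : Fˣ) : F) ∈ O)) ∧
        (2 : IsLocalRing.ResidueField O) ≠ 0 ∧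
        (∃ (T : QData) (k : ℕ), 1 ≤ k ∧
          2 ^ k * (squares (IsLocalRing.ResidueField O)).index = (squares F).index ∧
          IsStructureOf (IsLocalRing.ResidueField O) T ∧ IsStructureOf F (ext^[k] T)) ∧
        (ElementaryType (IsLocalRing.ResidueField O) → ElementaryType F) := by
  have hcard : Nat.card (Symbols F) =
      Nat.card {c : Fˣ → Fˣ → ZMod 2 // Pool.Agent.N88.FR.IsSt F c} := by
    refine Nat.card_congr (Equiv.subtypeEquivRight fun c => ?_)
    exact ⟨fun h => ⟨h.1, h.2.1, h.2.2⟩, fun h => ⟨h.1, h.2, h.3⟩⟩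
  obtain ⟨S, hS, hSf, hSq, hneg, hSn, hnum, ⟨B, _, β, hβ⟩, hV⟩ :=
    Pool.Agent.N908.FR2.field_str h2 hn h1
  rw [hcard, hnum]
  have hidx : ∀ c : ℕ, (∀ a : Fˣ, ¬ IsSquare (a : F) → 2 ^ c ≤ (norms a).index) →
      ∀ g : S.G, g ≠ 1 → 2 ^ c * {b : S.G | S.q g b = S.zero}.ncard ≤ 2 ^ n := by
    intro c hc g hg
    obtain ⟨a, ha, he⟩ := hV g hg
    have h3 : (nG a).index = (norms a).index := rfl
    rw [← he, h3, mul_comm]
    exact Nat.mul_le_mul_left _ (hc a ha)
  have e4 : ∀ m : ℕ, 2 ^ (2 * m) = 4 ^ m := by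
    intro m
    rw [pow_mul]
    norm_num
  refine ⟨fun h => ⟨S, Pool.Agent.N908.FR2.elem_many' hSq hneg hSn h hβ, hS⟩, ?_, ?_⟩
  · intro c hc1 hc h
    by_contra hcon
    have hx : ¬ ∃ T : QData, IsQuat T ∧ Iso (ext T) S := by
      rintro ⟨T, hT, hi⟩
      refine hcon ⟨T, hT, structure_iso hS (iso_symm hi) ?_⟩
      show ((T.q 1 1, pw (pw T.neg 1) 1 * pw 1 1 * pw 1 1) : T.Q × T.G) = (T.zero, 1)
      rw [q_one hT]
      simp [pw]
    obtain ⟨b1, b2, -⟩ := Pool.Agent.N908.FR2.not_ext hSq hneg hSn hx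
    have hc' := hidx c hc
    rcases h with h | h
    · exact absurd (b2 c hc1 hc') (by omega)
    · rw [e4] at h
      refine absurd (b1 fun a ha => ?_) (by omega)
      by_contra hall
      push Not at hall
      have h3 := hc' a ha
      have h4 : {b : S.G | S.q a b = S.zero} = Set.univ := Set.eq_univ_of_forall hall
      rw [h4, Set.ncard_univ, hSn] at h3
      have h5 : 2 ^ 1 ≤ 2 ^ c := Nat.pow_le_pow_right (by norm_num) hc1
      have h6 : 0 < 2 ^ n := by positivity
      nlinarith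
  · intro c hc1 hc h
    rw [e4] at h
    obtain ⟨Bs, hB⟩ := Pool.Agent.Y67.ET.t_BASIC S hSq
    have hlt := Pool.Agent.N908.FR2.basic_small hSq hneg hSn hc1 (hidx (c + 1) hc) h Bs hB
    obtain ⟨O, h5, h6, h7, -, k, T, h8, h9, h10, h11⟩ :=
      Pool.Agent.N88.FR.reduceB h2 hS hSf hSq Bs hB hlt
    refine ⟨O, h5.2.2, h6, h7, ⟨T, k, h8, h9, h10, h11⟩, ?_⟩
    rintro ⟨R, hR, hRs⟩
    exact ⟨_, Pool.Agent.Y920.ETC.elem_iter (Elem.iso _ _ hR (iso_of_structure hRs h10)) k, h11⟩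

end Pool.Agent.Results.MP_2429c0_al.NormIndexSymbols
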