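import Pool.Agent.N88.TS.Fin
import Pool.Agent.N88.TS.Field

/-! # MP_2429c0_al: fields with at most twenty-seven quaternion algebras

Let `F` be a field of characteristic `≠ 2` with finitely many square classes.  If there are at most
27 quaternion algebras over `F` up to isomorphism, then the quaternionic structure of `F` is of
elementary type.  It is enough that, for all `x, y, z`, there are at most 27 quaternion
algebras `(g,b)` with `g` in the subgroup generated by `x, y, z`. -/

set_option autoImplicit false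

namespace Pool.Agent.Results.MP_2429c0_al.TwentySeven

open scoped Quaternion
open Pool.Agent.H315R3.ETC Pool.Agent.TH188.ET

universe u

/-- there are at most `n` quaternion algebras `(g,b)`, `g ∈ W`, up to isomorphism -/
def AtMost {F : Type u} [Field F] (n : ℕ) (W : Set Fˣ) : Prop :=
  ∃ l : Fin n → Fˣ × Fˣ, ∀ g ∈ W, ∀ b : Fˣ,
    ∃ i, Nonempty (ℍ[F,(g : F),0,(b : F)] ≃ₐ[F] ℍ[F,((l i).1 : F),0,((l i).2 : F)])

/-- the group of the nonzero values of the norm form `x² - a y²` -/
def normGroup {F : Type u} [Field F] (a : Fˣ) : Subgroup Fˣ where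
  carrier := {c | ∃ x y : F, (c : F) = x ^ 2 - a * y ^ 2}
  one_mem' := NormFrom.one a
  mul_mem' := NormFrom.mul
  inv_mem' := NormFrom.inv

theorem result {F : Type u} [Field F] (h2 : (2 : F) ≠ 0)
    (hfin : (powMonoidHom 2 : Fˣ →* Fˣ).range.index ≠ 0) :
    -- at most 27 quaternion algebras
    (AtMost 27 (Set.univ : Set Fˣ) → ∃ S : QData, Elem S ∧ IsStructureOf F S) ∧
    -- for all `x, y, z`: at most 27 quaternion algebras with a slot in `⟨x,y,z⟩`, or norm
    -- groups of index at most four at `x`, `y`, `z` and `xyz`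
    ((∀ x y z : Fˣ, AtMost 27 ((Subgroup.closure {x, y, z} : Subgroup Fˣ) : Set Fˣ) ∨
      ∀ p : Fˣ, p = x ∨ p = y ∨ p = z ∨ p = x * y * z →
        (normGroup p).index ≠ 0 ∧ (normGroup p).index ≤ 4) →
      ∃ S : QData, Elem S ∧ IsStructureOf F S) := by
  have hF : FinSq F := by
    have : Finite (Fˣ ⧸ (powMonoidHom 2 : Fˣ →* Fˣ).range) := by
      by_contra hc
      rw [not_finite_iff_infinite] at hc
      exact hfin Nat.card_eq_zero_of_infinite
    exact this
  refine ⟨fun ⟨l, hl⟩ => Pool.Agent.N88.TS.field27 Pool.Agent.N88.TS.str' h2 hF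
    ⟨l, fun a b => hl a trivial b⟩, fun h => Pool.Agent.N88.TS.field_local Pool.Agent.N88.TS.str' h2 hF
      fun x y z => ?_⟩
  rcases h x y z with ⟨l, hl⟩ | h
  · exact Or.inl ⟨l, fun g hg b => hl g hg b⟩
  · refine Or.inr fun p hp => ?_
    obtain ⟨h0, h4⟩ := h p hp
    have hfi : Finite (Fˣ ⧸ normGroup p) := Nat.finite_of_card_ne_zero h0
    have hft : Fintype (Fˣ ⧸ normGroup p) := Fintype.ofFinite _
    have hc : Fintype.card (Fˣ ⧸ normGroup p) ≤ 4 := by
      rw [← Nat.card_eq_fintype_card]
      exact h4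
    have hcard : Fintype.card (Fˣ ⧸ normGroup p) ≤ Fintype.card (Fin 4) := by
      rw [Fintype.card_fin]; exact hc
    obtain ⟨e⟩ := Function.Embedding.nonempty_of_card_le hcard
    have hne : Nonempty (Fˣ ⧸ normGroup p) := ⟨QuotientGroup.mk 1⟩
    refine ⟨fun i => (Quotient.out (Function.invFun e i))⁻¹, fun b => ⟨e (QuotientGroup.mk b), ?_⟩⟩
    have e1 : Function.invFun e (e (QuotientGroup.mk b)) = (QuotientGroup.mk b : Fˣ ⧸ normGroup p) :=
      Function.leftInverse_invFun e.injective _
    show NormFrom p (b * (Quotient.out (Function.invFun e (e (QuotientGroup.mk b))))⁻¹)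
    rw [e1]
    have e2 : (QuotientGroup.mk (Quotient.out (QuotientGroup.mk b : Fˣ ⧸ normGroup p)) :
        Fˣ ⧸ normGroup p) = QuotientGroup.mk b := QuotientGroup.out_eq' _
    have e3 := QuotientGroup.eq.1 e2
    have : b * (Quotient.out (QuotientGroup.mk b : Fˣ ⧸ normGroup p))⁻¹ ∈ normGroup p := by
      rw [mul_comm]
      exact e3
    exact this

end Pool.Agent.Results.MP_2429c0_al.TwentySeven
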